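import Pool.Agent.J4H81.DK.Stm
import Pool.Agent.J4H57.MV.Md

/-!
# Project DK: correlations of the model with multipliers (MDA)
-/

set_option autoImplicit false

namespace Pool.Agent.J4H19.DK

open Finset
open Pool.Agent.J4H32.MV
open Pool.Agent.J4H81.PT (GG TV hq QQ TV_nonneg)
open Pool.Agent.J4H57.MV (prod_le_exp sum_ml sum_sq)
open Pool.Agent.J4H81.DK (S_CRA S_MDA S_MDA')

theorem Sg_nonneg (w : ℕ) (h : ℤ) : 0 ≤ Sg w h := by
  unfold Sg
  exact sum_nonneg fun p _ => by positivity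

open Classical in
theorem t_MDA : S_MDA' := by
  intro hCRA hMC hLM W Q J T w α C V hQ hw hW hα hαw hVT hV hC
  have hch : ∀ j, ∃ C' : ℕ, (∀ s : ℕ, GG W Q (C j + W * (α j * s)) = GG W Q ((C' + W * s : ℕ) : ℤ)) ∧
      ∀ p : ℕ, p.Prime → p ≤ Q → ¬ p ∣ W → (p : ℤ) ∣ (α j : ℤ) * C' - C j := by
    intro j
    refine hCRA W Q (α j) (C j) (hα j) fun p hp hpa => hW p hp ?_
    exact (Nat.le_of_dvd (hα j) hpa).trans (hαw j)
  choose C' hC1 hC2 using hch
  have hcong : ∀ p : ℕ, p.Prime → p ≤ Q → ¬ p ∣ W → ∀ i j, (p : ℤ) ∣ (C' i : ℤ) - C' j →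
      (p : ℤ) ∣ (α i : ℤ) * C j - α j * C i := by
    intro p hp hpQ hpW i j hd
    have h1 := hC2 i p hp hpQ hpW
    have h2 := hC2 j p hp hpQ hpW
    have h3 : (α i : ℤ) * C j - α j * C i = (α j : ℤ) * ((α i : ℤ) * C' i - C i) -
        (α i : ℤ) * ((α j : ℤ) * C' j - C j) - (α i : ℤ) * α j * ((C' i : ℤ) - C' j) := by ring
    rw [h3]
    exact dvd_sub (dvd_sub (h1.mul_left _) (h2.mul_left _)) (hd.mul_left _)
  have hprod : ∀ s : ℕ, ∏ j, GG W Q (C j + W * (α j * s)) =
      ∏ j, GG W Q ((C' j + W * s : ℕ) : ℤ) := fun s => prod_congr rfl fun j _ => hC1 j s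
  rw [sum_congr rfl fun s _ => by rw [hprod s]]
  set A : ℝ := 2 ^ J * ((J : ℝ) + 2) with hA
  have hA0 : 0 ≤ A := by positivity
  set y : ℕ → ℝ := fun p => ∑ i : Fin J, ∑ j : Fin J,
    (if i ≠ j ∧ (p : ℤ) ∣ (α i : ℤ) * C j - α j * C i then 1 / (p : ℝ) else 0) with hy
  have hy0 : ∀ p, 0 ≤ y p := fun p => sum_nonneg fun i _ => sum_nonneg fun j _ => by
    split_ifs
    · positivity
    · exact le_rfl
  set x : ℕ → ℝ := fun p => A * (1 / ((p : ℝ) - 1) ^ 2 + y p) with hx
  have hx0 : ∀ p, 0 ≤ x p := fun p => mul_nonneg hA0 (add_nonneg (by positivity) (hy0 p))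
  have h1 := hMC W Q J T C' V x hQ hVT hV hx0 (by
    intro p hp hpQ hpW
    by_cases h2 : ∀ i j : Fin J, i ≠ j → ¬ (p : ℤ) ∣ (C' i : ℤ) - C' j
    · refine (sum_ml (b := ((J : ℝ) + 2) / ((p : ℝ) - 1) ^ 2) (by positivity)
        (fun S => (hLM J W p C' S hp hpW).1)
        (fun S hS => (hLM J W p C' S hp hpW).2.2 hS fun i _ j _ => h2 i j)).trans ?_
      rw [hx]
      have : A * (1 / ((p : ℝ) - 1) ^ 2) ≤ A * (1 / ((p : ℝ) - 1) ^ 2 + y p) :=
        mul_le_mul_of_nonneg_left (by linarith [hy0 p]) hA0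
      refine le_trans (le_of_eq ?_) this
      rw [hA]
      ring
    · push Not at h2
      obtain ⟨i, j, hij, hd'⟩ := h2
      have hd := hcong p hp hpQ hpW i j hd'
      refine (sum_ml (b := ((J : ℝ) + 2) / p) (by positivity)
        (fun S => (hLM J W p C' S hp hpW).1)
        (fun S hS => (hLM J W p C' S hp hpW).2.1 hS)).trans ?_
      have h3 : 1 / (p : ℝ) ≤ y p := by
        have h4 : (if i ≠ j ∧ (p : ℤ) ∣ (α i : ℤ) * C j - α j * C i then 1 / (p : ℝ) else 0) ≤ y p := by
          refine le_trans ?_ (single_le_sum (f := fun i : Fin J => ∑ j : Fin J,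
            (if i ≠ j ∧ (p : ℤ) ∣ (α i : ℤ) * C j - α j * C i then 1 / (p : ℝ) else 0)) (fun i _ =>
              sum_nonneg fun j _ => by
                split_ifs
                · positivity
                · exact le_rfl) (mem_univ i))
          exact single_le_sum (f := fun j : Fin J =>
            (if i ≠ j ∧ (p : ℤ) ∣ (α i : ℤ) * C j - α j * C i then 1 / (p : ℝ) else 0)) (fun j _ => by
                split_ifs
                · positivity
                · exact le_rfl) (mem_univ j)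
        rwa [if_pos ⟨hij, hd⟩] at h4
      rw [hx]
      have h5 : A * (1 / (p : ℝ)) ≤ A * (1 / ((p : ℝ) - 1) ^ 2 + y p) := by
        refine mul_le_mul_of_nonneg_left ?_ hA0
        have : 0 ≤ 1 / ((p : ℝ) - 1) ^ 2 := by positivity
        linarith
      refine le_trans (le_of_eq ?_) h5
      rw [hA]
      ring)
  have hVs : 0 ≤ ∑ s ∈ range T, V s := sum_nonneg fun s _ => hV s
  refine h1.trans (add_le_add ?_ le_rfl)
  refine mul_le_mul_of_nonneg_right ?_ hVs
  refine sub_le_sub_right ?_ 1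
  refine (prod_le_exp _ x hx0).trans (Real.exp_le_exp.mpr ?_)
  rw [hx, ← mul_sum]
  refine mul_le_mul_of_nonneg_left ?_ hA0
  rw [sum_add_distrib]
  set P := (range (Q + 1)).filter (fun p => p.Prime ∧ ¬ p ∣ W) with hP
  have hPw : ∀ p ∈ P, w < p := by
    intro p hp
    rw [hP, mem_filter] at hp
    by_contra h
    exact hp.2.2 (hW p hp.2.1 (by omega))
  refine add_le_add ?_ ?_
  · refine le_trans (sum_le_sum_of_subset_of_nonneg (t := Ioc w Q) ?_ ?_) (sum_sq (by omega))
    · intro p hp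
      have h2 := hPw p hp
      rw [hP, mem_filter, mem_range] at hp
      rw [mem_Ioc]
      omega
    · intro p _ _
      positivity
  · rw [hy, sum_comm]
    refine sum_le_sum fun i _ => ?_
    rw [sum_comm]
    refine sum_le_sum fun j _ => ?_
    by_cases hij : i = j
    · subst hij
      rw [sum_eq_zero]
      · exact Sg_nonneg _ _
      · intro p _
        rw [if_neg]
        exact fun h => h.1 rfl
    · have hne : (α i : ℤ) * C j - α j * C i ≠ 0 := sub_ne_zero.2 (hC i j hij)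
      unfold Sg
      rw [← sum_filter]
      refine sum_le_sum_of_subset_of_nonneg ?_ fun p _ _ => by positivity
      intro p hp
      rw [mem_filter] at hp
      have hpw := hPw p hp.1
      have hp1 := hp.1
      rw [hP, mem_filter] at hp1
      rw [mem_filter, Nat.mem_primeFactors]
      refine ⟨⟨hp1.2.1, ?_, by rwa [Ne, Int.natAbs_eq_zero]⟩, hpw⟩
      exact Int.natCast_dvd.mp hp.2.2

end Pool.Agent.J4H19.DK
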