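import Pool.Agent.J4H81.DK.Stm
import Pool.Agent.J4H19.MV.Te

/-!
# Project DK: telescoping with multipliers (TEA)
-/

set_option autoImplicit false

namespace Pool.Agent.J4H19.DK

open Finset MeasureTheory
open Pool.Agent.J4H81.PT (hat cx)
open Pool.Agent.J4H32.MV (S_FR)
open Pool.Agent.J4H19.MV (tele fibre)
open Pool.Agent.J4H81.DK (S_TEA)

/-- a sum over the multiples of `α` -/
theorem dil (α T S₀ : ℕ) (hα : 1 ≤ α) (h : α * S₀ ≤ T) (φ : ℕ → ℕ → ℝ) :
    ∑ x ∈ range T, (if α ∣ x ∧ x / α < S₀ then φ (x / α) x else 0) =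
      ∑ s ∈ range S₀, φ s (α * s) := by
  rw [← sum_filter]
  symm
  refine sum_nbij' (fun s => α * s) (fun x => x / α) ?_ ?_ ?_ ?_ ?_
  · intro s hs
    rw [mem_filter, mem_range]
    have h1 : s < S₀ := mem_range.1 hs
    refine ⟨lt_of_lt_of_le (Nat.mul_lt_mul_of_pos_left h1 hα) h, dvd_mul_right _ _, ?_⟩
    rw [Nat.mul_div_cancel_left _ hα]
    exact h1
  · intro x hx
    rw [mem_filter] at hx
    exact mem_range.2 hx.2.2
  · intro s _
    exact Nat.mul_div_cancel_left _ hα
  · intro x hx
    rw [mem_filter] at hx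
    exact Nat.mul_div_cancel' hx.2.1
  · intro s _
    rw [Nat.mul_div_cancel_left _ hα]

theorem t_TEA : S_FR → S_TEA := by
  intro hFR K T S₀ α F g A E m a τ hA hα hST hF hg hm hτ hE hmin hsq
  classical
  set R : ℝ := Real.sqrt (E * a) + τ with hR
  set P : Fin K → (Fin K → ℕ) → ℕ → ℝ := fun i t s =>
    (∏ j ∈ univ.filter (fun j => j < i), g j (α j * s + t j)) *
      ∏ j ∈ univ.filter (fun j => i < j), F j (α j * s + t j) with hP
  set G : Fin K → (Fin K → ℕ) → ℕ → ℝ := fun i t x =>
    if α i ∣ x ∧ x / α i < S₀ then P i t (x / α i) else 0 with hG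
  set Bd : Fin K → Finset (Fin K → ℕ) := fun i =>
    (Fintype.piFinset (fun _ : Fin K => range T)).filter (fun t =>
      R < |∑ x ∈ range T, G i t x * (F i (x + t i) - g i (x + t i))|) with hBd
  have hPupd : ∀ i t, P i (Function.update t i 0) = P i t := by
    intro i t
    funext s
    simp only [hP]
    congr 1
    · refine prod_congr rfl fun j hj => ?_
      rw [Function.update_of_ne (mem_filter.1 hj).2.ne]
    · refine prod_congr rfl fun j hj => ?_
      rw [Function.update_of_ne (mem_filter.1 hj).2.ne']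
  have hGupd : ∀ i t, G i (Function.update t i 0) = G i t := by
    intro i t
    simp only [hG, hPupd]
  have hGsum : ∀ i t, ∑ x ∈ range T, G i t x * (F i (x + t i) - g i (x + t i)) =
      ∑ s ∈ range S₀, P i t s * (F i (α i * s + t i) - g i (α i * s + t i)) := by
    intro i t
    rw [← dil (α i) T S₀ (hα i) (hST i)
      (fun s x => P i t s * (F i (x + t i) - g i (x + t i)))]
    refine sum_congr rfl fun x _ => ?_
    simp only [hG]
    split_ifs
    · rfl
    · rw [zero_mul]
  have hGsq : ∀ i t, ∑ x ∈ range T, G i t x ^ 2 = ∑ s ∈ range S₀, P i t s ^ 2 := by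
    intro i t
    rw [← dil (α i) T S₀ (hα i) (hST i) (fun s _ => P i t s ^ 2)]
    refine sum_congr rfl fun x _ => ?_
    simp only [hG]
    split_ifs
    · rfl
    · rw [zero_pow two_ne_zero]
  have hcard : ∀ i, ((Bd i).card : ℝ) ≤ (2 * m ^ 2 * a / τ ^ 2) * (T : ℝ) ^ (K - 1) := by
    intro i
    refine fibre K T i (Bd i) _ ?_ ?_
    · intro t ht j
      rw [hBd, mem_filter, Fintype.mem_piFinset] at ht
      exact mem_range.1 (ht.1 j)
    · intro t'
      obtain ⟨Ex, h1, h2⟩ := hFR T (fun s => F i s - g i s) (G i t') A E m a τ hA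
        (fun s hs => by rw [hF i s hs, hg i s hs, sub_zero]) hm hτ (hE i) (hmin i) (by
          rw [hGsq]
          exact hsq i t')
      refine ⟨Ex, h1, fun t ht htt => ?_⟩
      by_contra hcon
      rw [hBd, mem_filter, Fintype.mem_piFinset] at ht
      have h3 := h2 (t i) (mem_range.1 (ht.1 i)) hcon
      rw [← htt, hGupd] at h3
      exact absurd ht.2 (not_lt.2 h3)
  have hsub : (Fintype.piFinset (fun _ : Fin K => range T)).filter (fun t =>
      K * R < |∑ s ∈ range S₀, (∏ j, F j (α j * s + t j) - ∏ j, g j (α j * s + t j))|) ⊆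
      univ.biUnion Bd := by
    intro t ht
    rw [mem_filter] at ht
    by_contra hcon
    rw [mem_biUnion] at hcon
    push Not at hcon
    have h1 : ∀ i, |∑ x ∈ range T, G i t x * (F i (x + t i) - g i (x + t i))| ≤ R := by
      intro i
      by_contra h2
      push Not at h2
      exact hcon i (mem_univ i) (by rw [hBd, mem_filter]; exact ⟨ht.1, h2⟩)
    have h2 : ∑ s ∈ range S₀, (∏ j, F j (α j * s + t j) - ∏ j, g j (α j * s + t j)) =
        ∑ i, ∑ x ∈ range T, G i t x * (F i (x + t i) - g i (x + t i)) := by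
      rw [sum_congr rfl (fun i _ => hGsum i t), sum_comm]
      refine sum_congr rfl fun s _ => ?_
      exact tele K (fun j => F j (α j * s + t j)) (fun j => g j (α j * s + t j))
    have h3 : |∑ s ∈ range S₀, (∏ j, F j (α j * s + t j) - ∏ j, g j (α j * s + t j))| ≤ K * R := by
      rw [h2]
      calc _ ≤ ∑ i, |∑ x ∈ range T, G i t x * (F i (x + t i) - g i (x + t i))| :=
            abs_sum_le_sum_abs _ _
        _ ≤ ∑ i : Fin K, R := sum_le_sum fun i _ => h1 i
        _ = K * R := by simp
    exact absurd ht.2 (not_lt.2 h3)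
  calc (((Fintype.piFinset (fun _ : Fin K => range T)).filter (fun t =>
      K * R < |∑ s ∈ range S₀, (∏ j, F j (α j * s + t j) - ∏ j, g j (α j * s + t j))|)).card : ℝ)
      ≤ ((univ.biUnion Bd).card : ℝ) := by exact_mod_cast card_le_card hsub
    _ ≤ ∑ i, ((Bd i).card : ℝ) := by exact_mod_cast card_biUnion_le
    _ ≤ ∑ i : Fin K, (2 * m ^ 2 * a / τ ^ 2) * (T : ℝ) ^ (K - 1) := sum_le_sum fun i _ => hcard i
    _ = _ := by
      rw [sum_const, card_univ, Fintype.card_fin, nsmul_eq_mul]
      ring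

end Pool.Agent.J4H19.DK
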